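import Mathlib
import Pool.Agent.Lib.Pc53cb9.Asymp

open MeasureTheory Filter
open scoped Topology unitInterval

namespace Pool.Agent.Results.MP_c53cb9_pr.Main

/-! ## Definitions of the problem -/

/-- The box `Λ_n` of the hierarchical lattice: the sequences `(x_1, ..., x_n)` in
`𝕋 = (ℤ/Lℤ)^d` (the coordinate `x_{j+1}` is `x j`, `j : Fin n`; the later coordinates vanish). -/
abbrev Box (d L n : ℕ) : Type := Fin n → Fin d → ZMod L

/-- The largest index `i ∈ {1, ..., n}` with `x_i ≠ 0` (and `0` if `x = 0`). -/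
def top {d L n : ℕ} (x : Box d L n) : ℕ :=
  (Finset.univ.filter fun j : Fin n => x j ≠ 0).sup fun j => (j : ℕ) + 1

/-- The norm: `‖0‖ = 0` and `‖x‖ = L ^ i` where `i` is the largest index with `x_i ≠ 0`. -/
noncomputable def hnorm {d L n : ℕ} (x : Box d L n) : ℝ :=
  if x = 0 then 0 else (L : ℝ) ^ top x

/-- The assumptions on `ρ` with exponent `α`. -/
def Admissible (α : ℝ) (ρ : ℝ → ℝ) : Prop :=
  ρ 0 = 0 ∧ (∀ r, 0 ≤ r → 0 ≤ ρ r) ∧
    ∃ A₁ A₂ : ℝ, 0 < A₁ ∧ A₁ ≤ A₂ ∧ ∀ r, 1 ≤ r → A₁ * r ^ (-α) ≤ ρ r ∧ ρ r ≤ A₂ * r ^ (-α)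

/-- `z` is a positive solution of
`(L^d - 1) ∑_{i=1}^n L^{(i-1)d} exp (- z⁻¹ ρ(L^i)) = L^{nd} - 2`. -/
def IsZeta (d L : ℕ) (ρ : ℝ → ℝ) (n : ℕ) (z : ℝ) : Prop :=
  0 < z ∧ ((L : ℝ) ^ d - 1) * ∑ i ∈ Finset.Icc 1 n,
    (L : ℝ) ^ ((i - 1) * d) * Real.exp (-(z⁻¹ * ρ ((L : ℝ) ^ i))) = (L : ℝ) ^ (n * d) - 2

open Classical in
/-- `ζ_n`, the positive solution of the equation above. -/
noncomputable def zeta (d L : ℕ) (ρ : ℝ → ℝ) (n : ℕ) : ℝ :=
  if h : ∃ z, IsZeta d L ρ n z then h.choose else 1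

/-- `κ_λ^{(n)}(x, y) = max {ρ(‖x - y‖) / ζ_n + λ L^{-4nd/3}, 0}`. -/
noncomputable def kap (d L n : ℕ) (ρ : ℝ → ℝ) (lam : ℝ) (x y : Box d L n) : ℝ :=
  max (ρ (hnorm (x - y)) / zeta d L ρ n + lam * (L : ℝ) ^ (-(4 * n * d / 3) : ℝ)) 0

/-- Independent uniform labels on the pairs of elements of `V`. -/
noncomputable def labelLaw (V : Type) : Measure (Sym2 V → I) := Measure.infinitePi fun _ => volume

lemma hnorm_sub_comm {d L n : ℕ} (x y : Box d L n) : hnorm (x - y) = hnorm (y - x) := by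
  have h : ∀ z : Box d L n, hnorm (-z) = hnorm z := by
    intro z
    unfold hnorm top
    simp only [neg_eq_zero, Pi.neg_apply, ne_eq]
  rw [← neg_sub y x, h]

/-- The random graph `G_n` at parameter `λ`: the pair `x ≠ y` is an edge if its label is less than
`1 - exp (- κ_λ^{(n)}(x, y))`. -/
def critGraph (d L n : ℕ) (ρ : ℝ → ℝ) (lam : ℝ) (ω : Sym2 (Box d L n) → I) :
    SimpleGraph (Box d L n) where
  Adj x y := x ≠ y ∧ (ω s(x, y) : ℝ) < 1 - Real.exp (-kap d L n ρ lam x y)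
  symm := ⟨fun x y h => ⟨h.1.symm, by
    have h2 := h.2
    unfold kap at h2 ⊢
    rw [Sym2.eq_swap, hnorm_sub_comm]
    exact h2⟩⟩
  loopless := ⟨fun x h => h.1 rfl⟩

/-- `C` is an `i`-th largest component of `G`: fewer than `i` components are larger than `C` and
at least `i` components are at least as large as `C`. -/
def IsIthLargest {V : Type} (G : SimpleGraph V) (i : ℕ) (C : G.ConnectedComponent) : Prop :=
  {C' : G.ConnectedComponent | C.supp.ncard < C'.supp.ncard}.ncard < i ∧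
    i ≤ {C' : G.ConnectedComponent | C.supp.ncard ≤ C'.supp.ncard}.ncard

/-- The component `C` contains a cycle of length `k`. -/
def HasCycle {V : Type} {G : SimpleGraph V} (C : G.ConnectedComponent) (k : ℕ) : Prop :=
  ∃ v ∈ C.supp, ∃ w : G.Walk v v, w.IsCycle ∧ w.length = k

/-- The `i`-th largest component of `G` exists and has the property `P`, however ties are
broken. -/
def IthHas {V : Type} (G : SimpleGraph V) (i : ℕ) (P : G.ConnectedComponent → Prop) : Prop :=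
  (∃ C, IsIthLargest G i C) ∧ ∀ C, IsIthLargest G i C → P C

/-- Property (NS). -/
def NS (d L : ℕ) [NeZero L] (ρ : ℝ → ℝ) : Prop :=
  ∀ (lam : ℝ) (i : ℕ), 1 ≤ i → ∀ m : ℕ → ℝ,
    (m =o[atTop] fun n : ℕ => (L : ℝ) ^ ((n : ℝ) * d / 3)) →
    Tendsto (fun n => (labelLaw (Box d L n)).real
      {ω | IthHas (critGraph d L n ρ lam ω) i fun C => ∃ k : ℕ, (k : ℝ) ≤ m n ∧ HasCycle C k})
      atTop (𝓝 0)

/-! ## Components and clusters -/

open Pool.Agent.Lib.Pc53cb9

section Comp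

variable {V : Type} [Fintype V] [DecidableEq V] {G : SimpleGraph V} {b : Sym2 V → Bool}

lemma mem_Cl_iff (hG : ∀ x y, G.Adj x y ↔ Op b x y) {x y : V} :
    y ∈ Cl Finset.univ {x} b ↔ G.Reachable x y := by
  rw [mem_Cl, SimpleGraph.reachable_iff_reflTransGen]
  simp only [Finset.mem_singleton, Finset.mem_univ, and_true, true_and, exists_eq_left]
  have h : G.Adj = fun x z => Op b x z := by
    funext x z
    exact propext (hG x z)
  rw [h]

lemma supp_eq (hG : ∀ x y, G.Adj x y ↔ Op b x y) (x : V) :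
    (G.connectedComponentMk x).supp = ↑(Cl Finset.univ {x} b) := by
  ext y
  rw [SimpleGraph.ConnectedComponent.mem_supp_iff, SimpleGraph.ConnectedComponent.eq,
    Finset.mem_coe, mem_Cl_iff hG]
  exact ⟨fun h => h.symm, fun h => h.symm⟩

lemma exists_ith (G : SimpleGraph V) {i K : ℕ} (hi : 1 ≤ i)
    (h : i ≤ {C : G.ConnectedComponent | K ≤ C.supp.ncard}.ncard) :
    ∃ C, IsIthLargest G i C := by
  classical
  set P : ℕ → Prop := fun s => i ≤ {C : G.ConnectedComponent | s ≤ C.supp.ncard}.ncard with hP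
  have hbound : ∀ s, P s → s ≤ Fintype.card V := by
    intro s hs
    by_contra hcon
    have : {C : G.ConnectedComponent | s ≤ C.supp.ncard} = ∅ := by
      ext C
      simp only [Set.mem_ofPred_eq, Set.mem_empty_iff_false, iff_false, not_le]
      have h1 : C.supp.ncard ≤ Fintype.card V := by
        have := Set.ncard_le_ncard (Set.subset_univ C.supp)
        rwa [Set.ncard_univ, Nat.card_eq_fintype_card] at this
      omega
    simp only [hP, this, Set.ncard_empty] at hs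
    omega
  have hK : P K := h
  set s := Nat.findGreatest P (Fintype.card V) with hs
  have hPs : P s := Nat.findGreatest_spec (hbound K hK) hK
  have hPs1 : ¬ P (s + 1) := by
    intro hcon
    have h1 := Nat.le_findGreatest (hbound _ hcon) hcon
    omega
  have hPs1' : {C : G.ConnectedComponent | s + 1 ≤ C.supp.ncard}.ncard < i := not_le.1 hPs1
  obtain ⟨C, hC⟩ : ∃ C : G.ConnectedComponent, C.supp.ncard = s := by
    by_contra hcon
    push Not at hcon
    have : {C : G.ConnectedComponent | s ≤ C.supp.ncard} =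
        {C : G.ConnectedComponent | s + 1 ≤ C.supp.ncard} := by
      ext C
      have := hcon C
      simp only [Set.mem_ofPred_eq]
      omega
    have hPs' : i ≤ {C : G.ConnectedComponent | s ≤ C.supp.ncard}.ncard := hPs
    rw [this] at hPs'
    omega
  refine ⟨C, ?_, ?_⟩
  · rw [hC]
    exact hPs1'
  · rw [hC]
    exact hPs

lemma card_ge (hG : ∀ x y, G.Adj x y ↔ Op b x y) (K : ℕ) :
    (bigCl K b).card ≤ {C : G.ConnectedComponent | K ≤ C.supp.ncard}.ncard := by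
  classical
  have hfin : {C : G.ConnectedComponent | K ≤ C.supp.ncard}.Finite := Set.toFinite _
  have h1 : (bigCl K b) ⊆ hfin.toFinset.image fun C => C.supp.toFinset := by
    intro D hD
    obtain ⟨⟨x, hx⟩, hD2⟩ := mem_bigCl.1 hD
    refine Finset.mem_image.2 ⟨G.connectedComponentMk x, ?_, ?_⟩
    · rw [Set.Finite.mem_toFinset]
      change K ≤ (G.connectedComponentMk x).supp.ncard
      rw [supp_eq hG, Set.ncard_coe_finset, hx]
      exact hD2
    · apply Finset.coe_injective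
      rw [Set.coe_toFinset, supp_eq hG, hx]
  calc (bigCl K b).card ≤ (hfin.toFinset.image fun C => C.supp.toFinset).card :=
        Finset.card_le_card h1
    _ ≤ hfin.toFinset.card := Finset.card_image_le
    _ = _ := (Set.ncard_eq_toFinset_card _ hfin).symm

lemma good_ith (hG : ∀ x y, G.Adj x y ↔ Op b x y) {i K : ℕ} (hi : 1 ≤ i) (h : Good i K b) :
    IthHas G i fun C => HasCycle C 3 := by
  have h1 : i ≤ {C : G.ConnectedComponent | K ≤ C.supp.ncard}.ncard := h.1.trans (card_ge hG K)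
  refine ⟨exists_ith G hi h1, ?_⟩
  intro C hC
  have hK : K ≤ C.supp.ncard := by
    by_contra hcon
    have h2 : {C' : G.ConnectedComponent | K ≤ C'.supp.ncard} ⊆
        {C' : G.ConnectedComponent | C.supp.ncard < C'.supp.ncard} := by
      intro C' hC'
      simp only [Set.mem_ofPred_eq] at hC' ⊢
      omega
    have h3 := Set.ncard_le_ncard h2
    have h4 := hC.1
    omega
  obtain ⟨v, rfl⟩ : ∃ v, G.connectedComponentMk v = C := C.exists_rep
  rw [supp_eq hG, Set.ncard_coe_finset] at hK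
  have h2 := h.2 v hK
  unfold NoTri at h2
  rw [not_not] at h2
  obtain ⟨x, hx, y, hy, z, hz, hxy, hyz, hxz⟩ := h2
  rw [← hG] at hxy hyz hxz
  refine ⟨x, ?_, SimpleGraph.Walk.cons hxy (SimpleGraph.Walk.cons hyz
    (SimpleGraph.Walk.cons hxz.symm SimpleGraph.Walk.nil)), ?_, rfl⟩
  · rw [supp_eq hG]
    exact hx
  · have n1 := hxy.ne
    have n2 := hyz.ne
    have n3 := hxz.ne
    simp_rw [SimpleGraph.Walk.isCycle_def]
    aesop

end Comp

/-! ## The critical parameter -/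

section Zeta

variable {d L : ℕ} {α A₁ A₂ : ℝ} {ρ : ℝ → ℝ}

lemma sum_Icc_eq (n : ℕ) (z : ℝ) :
    ∑ i ∈ Finset.Icc 1 n, (L : ℝ) ^ ((i - 1) * d) * Real.exp (-(z⁻¹ * ρ ((L : ℝ) ^ i))) =
      ∑ k ∈ Finset.range n, ((L : ℝ) ^ d) ^ k * Real.exp (-(z⁻¹ * ρ ((L : ℝ) ^ (k + 1)))) := by
  induction n with
  | zero => simp
  | succ n ih =>
    rw [Finset.sum_Icc_succ_top (by omega), Finset.sum_range_succ, ih, Nat.add_sub_cancel,
      ← pow_mul, mul_comm d n]

lemma L_pow_rpow (hL : 2 ≤ L) (k : ℕ) : ((L : ℝ) ^ k) ^ (-α) = ((L : ℝ) ^ (-α)) ^ k := by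
  have : (0 : ℝ) ≤ L := by positivity
  rw [← Real.rpow_natCast, ← Real.rpow_natCast, ← Real.rpow_mul this, ← Real.rpow_mul this,
    mul_comm]

lemma exists_zeta (hL : 2 ≤ L)
    (hρ : ∃ A₁ A₂ : ℝ, 0 < A₁ ∧ A₁ ≤ A₂ ∧ ∀ r, 1 ≤ r → A₁ * r ^ (-α) ≤ ρ r ∧ ρ r ≤ A₂ * r ^ (-α))
    {n : ℕ} (hn : 2 < L ^ (n * d)) : ∃ z, IsZeta d L ρ n z := by
  obtain ⟨A₁, A₂, hA1, hA12, hA⟩ := hρ
  have hL1 : (1 : ℝ) ≤ L := by exact_mod_cast (by omega : 1 ≤ L)
  have hpos : ∀ k : ℕ, 0 < ρ ((L : ℝ) ^ k) := by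
    intro k
    have h1 : (1 : ℝ) ≤ (L : ℝ) ^ k := one_le_pow₀ hL1
    have h2 := (hA _ h1).1
    have h3 : 0 < ((L : ℝ) ^ k) ^ (-α) := Real.rpow_pos_of_pos (by linarith) _
    exact lt_of_lt_of_le (by positivity) h2
  set g : ℝ → ℝ := fun u => ((L : ℝ) ^ d - 1) * ∑ k ∈ Finset.range n, ((L : ℝ) ^ d) ^ k *
    Real.exp (-(u * ρ ((L : ℝ) ^ (k + 1)))) with hg
  have hn' : (2 : ℝ) < (L : ℝ) ^ (n * d) := by exact_mod_cast hn
  have hcont : Continuous g := by
    refine continuous_const.mul (continuous_finsetSum _ fun k _ => ?_)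
    fun_prop
  have h0 : g 0 = (L : ℝ) ^ (n * d) - 1 := by
    simp only [hg, zero_mul, neg_zero, Real.exp_zero, mul_one]
    rw [mul_comm, geom_sum_mul, ← pow_mul, mul_comm d n]
  have hlim : Tendsto g atTop (𝓝 0) := by
    have h1 : Tendsto g atTop (𝓝 (((L : ℝ) ^ d - 1) * ∑ k ∈ Finset.range n,
        ((L : ℝ) ^ d) ^ k * 0)) := by
      refine Tendsto.const_mul _ (tendsto_finsetSum _ fun k _ => Tendsto.const_mul _ ?_)
      refine Real.tendsto_exp_neg_atTop_nhds_zero.comp ?_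
      exact tendsto_id.atTop_mul_const (hpos (k + 1))
    simpa using h1
  obtain ⟨U, hU1, hU2⟩ := ((hlim.eventually (gt_mem_nhds (show (0 : ℝ) <
    (L : ℝ) ^ (n * d) - 2 by linarith))).and (eventually_ge_atTop (0 : ℝ))).exists
  have hmem : (L : ℝ) ^ (n * d) - 2 ∈ Set.Icc (g U) (g 0) := ⟨le_of_lt hU1, by rw [h0]; linarith⟩
  obtain ⟨u, ⟨hu0, _⟩, hu⟩ := intermediate_value_Icc' hU2 hcont.continuousOn hmem
  have hu_ne : u ≠ 0 := by
    rintro rfl
    rw [h0] at hu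
    linarith
  have hupos : 0 < u := lt_of_le_of_ne hu0 (Ne.symm hu_ne)
  refine ⟨u⁻¹, inv_pos.2 hupos, ?_⟩
  rw [sum_Icc_eq, inv_inv]
  exact hu

lemma zeta_spec {n : ℕ} (h : ∃ z, IsZeta d L ρ n z) : IsZeta d L ρ n (zeta d L ρ n) := by
  unfold zeta
  rw [dif_pos h]
  exact h.choose_spec

lemma r_eq (hL : 2 ≤ L) : (((L ^ d : ℕ) : ℝ)) * (L : ℝ) ^ (-α) = (L : ℝ) ^ ((d : ℝ) - α) := by
  have : (0 : ℝ) < L := by positivity
  push_cast
  rw [← Real.rpow_natCast, ← Real.rpow_add this, sub_eq_add_neg]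

lemma zdata (hd : 1 ≤ d) (hL : 2 ≤ L) (hα1 : (d : ℝ) < 2 * α) (hα2 : α < d) (hA1 : 0 < A₁)
    (hA12 : A₁ ≤ A₂) (hA : ∀ r, 1 ≤ r → A₁ * r ^ (-α) ≤ ρ r ∧ ρ r ≤ A₂ * r ^ (-α))
    {n : ℕ} (hn : 2 ≤ n) :
    ZData (L ^ d) ((L : ℝ) ^ (-α)) A₁ A₂ (fun k => ρ ((L : ℝ) ^ k)) n (zeta d L ρ n) := by
  have hL0 : (0 : ℝ) < L := by positivity
  have hL1 : (1 : ℝ) < L := by exact_mod_cast (by omega : 1 < L)
  have hd' : (1 : ℝ) ≤ d := by exact_mod_cast hd
  have hn' : 2 < L ^ (n * d) := by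
    calc 2 < 2 ^ 2 := by norm_num
      _ ≤ 2 ^ (n * d) := Nat.pow_le_pow_right (by norm_num) (by nlinarith)
      _ ≤ L ^ (n * d) := Nat.pow_le_pow_left hL _
  have hz := zeta_spec (exists_zeta (α := α) hL ⟨A₁, A₂, hA1, hA12, hA⟩ hn')
  have hLk : ∀ k : ℕ, (1 : ℝ) ≤ (L : ℝ) ^ k := fun k => one_le_pow₀ hL1.le
  refine ⟨?_, Real.rpow_pos_of_pos hL0 _, ?_, ?_, ?_, hA1, ?_, ?_, hz.1, hn, ?_⟩
  · calc 2 ≤ L := hL
      _ = L ^ 1 := (pow_one L).symm
      _ ≤ L ^ d := Nat.pow_le_pow_right (by omega) hd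
  · exact Real.rpow_lt_one_of_one_lt_of_neg hL1 (by linarith)
  · rw [r_eq hL]
    exact Real.one_lt_rpow hL1 (by linarith)
  · push_cast
    rw [← Real.rpow_natCast (L : ℝ) d, pow_two, ← Real.rpow_add hL0, ← Real.rpow_add hL0]
    exact Real.rpow_lt_one_of_one_lt_of_neg hL1 (by linarith)
  · intro k _
    rw [← L_pow_rpow hL]
    exact (hA _ (hLk k)).1
  · intro k _
    rw [← L_pow_rpow hL]
    exact (hA _ (hLk k)).2
  · have h1 := hz.2
    rw [sum_Icc_eq] at h1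
    have h2 : ∑ k ∈ Finset.range n, (((L ^ d : ℕ) : ℝ) - 1) * ((L ^ d : ℕ) : ℝ) ^ k *
        (1 - Real.exp (-(ρ ((L : ℝ) ^ (k + 1)) / zeta d L ρ n))) =
        ((L : ℝ) ^ d - 1) * ∑ k ∈ Finset.range n, ((L : ℝ) ^ d) ^ k -
        ((L : ℝ) ^ d - 1) * ∑ k ∈ Finset.range n, ((L : ℝ) ^ d) ^ k *
          Real.exp (-((zeta d L ρ n)⁻¹ * ρ ((L : ℝ) ^ (k + 1)))) := by
      rw [← mul_sub, ← Finset.sum_sub_distrib, Finset.mul_sum]
      refine Finset.sum_congr rfl fun k _ => ?_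
      push_cast
      rw [div_eq_inv_mul]
      ring
    rw [h2, h1, mul_comm ((L : ℝ) ^ d - 1), geom_sum_mul, ← pow_mul, mul_comm d n]
    ring

end Zeta

/-! ## The main estimate -/

section Final

variable {d L n : ℕ}

lemma top_sub (x y : Box d L n) : top (x - y) = lev x y := by
  unfold top lev
  congr 1
  ext j
  simp only [Finset.mem_filter, Finset.mem_univ, true_and, Pi.sub_apply, ne_eq, sub_eq_zero]

lemma s_eq (hL : 2 ≤ L) (n : ℕ) : (L : ℝ) ^ (-(4 * n * d / 3) : ℝ) =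
    ((((L ^ d : ℕ) : ℝ)) ^ n) ^ (-(4 / 3) : ℝ) := by
  have : (0 : ℝ) ≤ L := by positivity
  push_cast
  rw [← pow_mul, ← Real.rpow_natCast, ← Real.rpow_mul this]
  congr 1
  push_cast
  ring

lemma adj_iff [NeZero L] (hL : 2 ≤ L) (ρ : ℝ → ℝ) (lam : ℝ) (ω : Sym2 (Box d L n) → I)
    (x y : Box d L n) :
    (critGraph d L n ρ lam ω).Adj x y ↔ Op (conf (lift (f2 (fun k => ρ ((L : ℝ) ^ k))
      (zeta d L ρ n) (lam * ((((L ^ d : ℕ) : ℝ)) ^ n) ^ (-(4 / 3) : ℝ)))) ω) x y := by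
  unfold Op
  change (x ≠ y ∧ (ω s(x, y) : ℝ) < 1 - Real.exp (-kap d L n ρ lam x y)) ↔ _
  refine and_congr_right fun hxy => ?_
  unfold conf
  rw [decide_eq_true_iff, lift_mk]
  have h1 : lev x y ≠ 0 := fun h => hxy (lev_eq_zero.1 h)
  have h2 : x - y ≠ 0 := sub_ne_zero.2 hxy
  rw [f2, if_neg h1, kap, hnorm, if_neg h2, top_sub, s_eq hL]

lemma labelLaw_eq (V : Type) : labelLaw V = labels V := rfl

/-- The main estimate: the bad event has small probability. -/
theorem eventually_small [NeZero L] (hd : 1 ≤ d) (hL : 2 ≤ L) {α : ℝ} (hα1 : 7 * (d : ℝ) / 9 < α)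
    (hα2 : α < d) {ρ : ℝ → ℝ} (hρ : Admissible α ρ) (lam : ℝ) {i : ℕ} (hi : 1 ≤ i) {ε : ℝ}
    (hε : 0 < ε) : ∀ᶠ n in atTop, (labelLaw (Box d L n)).real
      {ω | ¬ IthHas (critGraph d L n ρ lam ω) i fun C => HasCycle C 3} ≤ ε := by
  obtain ⟨_, _, A₁, A₂, hA1, hA12, hA⟩ := hρ
  have hd' : (1 : ℝ) ≤ d := by exact_mod_cast hd
  have hL0 : (0 : ℝ) < L := by positivity
  have hL1 : (1 : ℝ) < L := by exact_mod_cast (by omega : 1 < L)
  have hZ : ∀ n, 2 ≤ n → ZData (L ^ d) ((L : ℝ) ^ (-α)) A₁ A₂ (fun k => ρ ((L : ℝ) ^ k)) n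
      (zeta d L ρ n) := fun n hn => zdata hd hL (by linarith) hα2 hA1 hA12 hA hn
  have H2 := hZ 2 le_rfl
  set b : ℕ := L ^ d with hb
  set β : ℝ := (L : ℝ) ^ (-α) with hβ
  have hA2 := H2.A2_pos
  have hc0 := H2.c0_pos
  have hc0' := H2.c0_le
  have hβ0 := H2.β_pos
  have hβ1 := H2.β_lt
  have hsq := H2.sq_lt
  have hb2 := H2.b2
  set δ : ℝ := 1 - α / d with hδ
  have hδ0 : 0 < δ := by
    rw [hδ, sub_pos, div_lt_one (by linarith)]; exact hα2
  have hδ1 : δ < 2 / 9 := by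
    rw [hδ]
    have : 7 / 9 < α / d := by rw [lt_div_iff₀ (by linarith)]; linarith
    linarith
  have hxδ : ∀ n : ℕ, ((b : ℝ) ^ n) ^ δ = ((b : ℝ) * β) ^ n := by
    intro n
    have e1 : (b : ℝ) * β = (b : ℝ) ^ δ := by
      rw [hb, hβ, r_eq hL]
      push_cast
      rw [← Real.rpow_natCast (L : ℝ) d, ← Real.rpow_mul hL0.le]
      congr 1
      rw [hδ]
      field_simp
    rw [e1, ← Real.rpow_natCast, ← Real.rpow_natCast, ← Real.rpow_mul (by positivity),
      ← Real.rpow_mul (by positivity), mul_comm]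
  have hc' : ZData.c0 b β A₁ A₂ / 4 * β ^ 2 ≤ 1 := by
    have : β ^ 2 ≤ 1 := pow_le_one₀ hβ0.le hβ1.le
    nlinarith
  have hpar := parameters hδ0 hδ1 (C₁ := 4 * A₂ / A₁) (C₂ := (4 * A₂ / A₁) ^ 2 / (1 - b * β ^ 2))
    (c := ZData.c0 b β A₁ A₂ / 4) (c' := ZData.c0 b β A₁ A₂ / 4 * β ^ 2) (by positivity)
    (div_nonneg (by positivity) (by linarith)) (by positivity) (by positivity) hc' lam i
    (B := b ^ 2) (Nat.one_le_pow _ _ (by have := H2.hb; omega)) hε
  have htop : Tendsto (fun n : ℕ => (b : ℝ) ^ n) atTop atTop :=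
    tendsto_pow_atTop_atTop_of_one_lt (by linarith)
  filter_upwards [htop.eventually hpar, eventually_ge_atTop 2] with n hn hn2
  obtain ⟨w, t, K, m, M, p1, p2, p3, p4, p5, p6, p7, p8, p9, p10, p11, p12, p13, p14, p15, p16⟩ :=
    hn
  rw [hxδ] at p3 p7 p8 p13
  have H := hZ n hn2
  have hT : Fintype.card (Fin d → ZMod L) = b := by
    rw [Fintype.card_fun, ZMod.card, Fintype.card_fin]
  have key := H.prob_not_good hT (K := K) (m := m) (M := M) (i := i) p1 p2 p3 p4 p5 p6 p7 p8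
    (by convert p9 using 2; ring) p10 p11 p12 (by convert p13 using 1; ring) p14
    (by exact_mod_cast p15)
  refine le_trans ?_ (key.trans ?_)
  · rw [labelLaw_eq]
    refine measureReal_mono ?_ (measure_ne_top _ _)
    intro ω hω hgood
    exact hω (good_ith (adj_iff hL ρ lam ω) hi hgood)
  · push_cast at p16
    exact p16

end Final

/-- **Main result.** For every `d ≥ 1`, `L ≥ 2`, every admissible `ρ` with exponent
`α ∈ (7d/9, d)`, every `λ` and `i ≥ 1`, the `i`-th largest critical component contains a triangle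
with probability tending to one; in particular property (NS) fails. -/
theorem result (d : ℕ) (hd : 1 ≤ d) (L : ℕ) [NeZero L] (hL : 2 ≤ L) (α : ℝ)
    (hα1 : 7 * (d : ℝ) / 9 < α) (hα2 : α < d) (ρ : ℝ → ℝ) (hρ : Admissible α ρ) :
    (∀ (lam : ℝ) (i : ℕ), 1 ≤ i →
      Tendsto (fun n => (labelLaw (Box d L n)).real
        {ω | IthHas (critGraph d L n ρ lam ω) i fun C => HasCycle C 3}) atTop (𝓝 1)) ∧
    ¬ NS d L ρ := by
  have hmain : ∀ (lam : ℝ) (i : ℕ), 1 ≤ i →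
      Tendsto (fun n => (labelLaw (Box d L n)).real
        {ω | IthHas (critGraph d L n ρ lam ω) i fun C => HasCycle C 3}) atTop (𝓝 1) := by
    intro lam i hi
    have : ∀ n, IsProbabilityMeasure (labelLaw (Box d L n)) := fun n => by
      rw [labelLaw_eq]; infer_instance
    rw [Metric.tendsto_atTop']
    intro ε hε
    have h1 := eventually_small hd hL hα1 hα2 hρ lam hi (show 0 < ε / 2 by positivity)
    obtain ⟨N, hN⟩ := eventually_atTop.1 h1
    refine ⟨N, fun n hn => ?_⟩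
    have h2 := hN n hn.le
    have h3 : 1 ≤ (labelLaw (Box d L n)).real
        {ω | IthHas (critGraph d L n ρ lam ω) i fun C => HasCycle C 3} +
        (labelLaw (Box d L n)).real
        {ω | ¬ IthHas (critGraph d L n ρ lam ω) i fun C => HasCycle C 3} := by
      rw [← probReal_univ (μ := labelLaw (Box d L n))]
      refine le_trans (measureReal_mono ?_ (measure_ne_top _ _)) (measureReal_union_le _ _)
      intro ω _
      exact em _
    have h4 : (labelLaw (Box d L n)).real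
        {ω | IthHas (critGraph d L n ρ lam ω) i fun C => HasCycle C 3} ≤ 1 := measureReal_le_one
    rw [Real.dist_eq, abs_lt]
    constructor <;> linarith
  refine ⟨hmain, ?_⟩
  intro hNS
  have h1 := hNS 0 1 le_rfl (fun _ => 3) (by
    have hL1 : (1 : ℝ) < L := by exact_mod_cast (by omega : 1 < L)
    rw [Asymptotics.isLittleO_const_left]
    right
    have hd' : (0 : ℝ) < d := by exact_mod_cast hd
    have h5 : Tendsto (fun n : ℕ => (L : ℝ) ^ ((n : ℝ) * d / 3)) atTop atTop := by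
      refine (tendsto_rpow_atTop_of_base_gt_one _ hL1).comp ?_
      have : Tendsto (fun n : ℕ => (n : ℝ) * (d / 3)) atTop atTop :=
        tendsto_natCast_atTop_atTop.atTop_mul_const (by positivity)
      refine this.congr fun n => ?_
      ring
    exact tendsto_norm_atTop_atTop.comp h5)
  have h2 := hmain 0 1 le_rfl
  have h3 : (1 : ℝ) ≤ 0 := by
    refine le_of_tendsto_of_tendsto' h2 h1 fun n => ?_
    have : IsProbabilityMeasure (labelLaw (Box d L n)) := by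
      rw [labelLaw_eq]; infer_instance
    refine measureReal_mono ?_ (measure_ne_top _ _)
    rintro ω ⟨h4, h5⟩
    exact ⟨h4, fun C hC => ⟨3, by norm_num, h5 C hC⟩⟩
  linarith

end Pool.Agent.Results.MP_c53cb9_pr.Main
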